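import Mathlib
import Pool.Agent.V11161.BF.Final

set_option autoImplicit false

/-!
# Almost all vectors of a Bohr set of bounded rank satisfy the prime k-tuples conjecture

For every `k` and `η > 0` there are `W`, a rank `d`, a radius `ρ > 0`, `b > 0`, `C` and `X₀` such
that for EVERY `X ≥ X₀` there are frequencies `θ_1, …, θ_d` with the following property. Let `B` be
the Bohr set of all integers `|h| ≤ X` such that all the numbers `h θ_j` are close to integers:
`|exp (2 π i h θ_j) - 1| ≤ ρ`; it has at least `b X` elements. At least `(1 - η) |B| ^ k` of the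
vectors `(h_1, …, h_k)` in `B ^ k` satisfy the prime tuples conjecture for the shifts `W h_i`: the
numbers `0, W h_1, …, W h_k` are distinct and for arbitrarily large `N`, the same for all these
vectors, there are at least `N / (log N) ^ C` primes `p ≤ 2 N` such that all the numbers
`p + W h_i` are primes.

Proof. By the theorem on clusters (`Pool.Agent.V11161.CL`, see the hand-in `PartitionIntoClusters`)
a set `U` of more than a quarter of the numbers up to `X` is such that almost all
`(k + 1)`-tuples `u` of `U` are good for the shifts `W u_i`. An energy increment argument gives a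
Bohr set `B` of bounded rank such that for almost all `h` in `B ^ k` a positive proportion of the
`x` modulo `2 X + 1` have `x, x + h_1, …, x + h_k` in `U`; so almost all `h` in `B ^ k` are
differences of good tuples.
-/

namespace Pool.Agent.Results.MP_8923e7_nt.AlmostAllOfBohrSets

open Filter Finset

/-- the Bohr set of the frequencies `θ_j`, of radius `ρ` and width `X` -/
def bohrSet {d : ℕ} (θ : Fin d → ℝ) (ρ : ℝ) (X : ℕ) : Set ℤ :=
  {h : ℤ | |h| ≤ X ∧ ∀ j, ‖Complex.exp (2 * Real.pi * Complex.I * (h * θ j)) - 1‖ ≤ ρ}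

theorem result (k : ℕ) (η : ℝ) (hη : 0 < η) :
    ∃ (W d C X₀ : ℕ) (ρ b : ℝ), 0 < W ∧ 0 < ρ ∧ 0 < b ∧ ∀ X : ℕ, X₀ ≤ X →
      ∃ (θ : Fin d → ℝ) (H : Finset (Fin k → ℤ)),
        b * X ≤ ((bohrSet θ ρ X).ncard : ℝ) ∧
        (∀ h ∈ H, (∀ i, h i ∈ bohrSet θ ρ X ∧ h i ≠ 0) ∧ Function.Injective h) ∧
        (1 - η) * ((bohrSet θ ρ X).ncard : ℝ) ^ k ≤ (H.card : ℝ) ∧
        ∃ᶠ N : ℕ in atTop, ∀ h ∈ H, (N : ℝ) / (Real.log N) ^ C ≤
          ({p : ℕ | p ≤ 2 * N ∧ p.Prime ∧
            ∀ i, ∃ q : ℕ, q.Prime ∧ (q : ℤ) = p + W * h i}.ncard : ℝ) :=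
  Pool.Agent.V11161.BF.bohrTuples k η hη

end Pool.Agent.Results.MP_8923e7_nt.AlmostAllOfBohrSets
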