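import Pool.Agent.V11290.FD.Sets2

/-!
# Prime tuples on arbitrary sets, for all shifts near `t θ i + s i`, for almost every `θ` with respect to arbitrary products
of measures with a Fourier transform of polynomial decay

Let `μ 1, ..., μ k` be ANY compactly supported probability measures on the line whose Fourier transforms decay like some
power, with an arbitrarily small exponent `σ > 0`. (Such measures live on many sets of Lebesgue measure zero and of
arbitrarily small dimension: on the badly approximable numbers with bounded partial quotients (Kaufman), on the sets of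
`τ`-well approximable numbers (Kaufman), on limit sets of convex cocompact Fuchsian groups (Bourgain, Dyatlov), on random
Salem sets, ...). For every `j` let up to `log ^ T (t j)` ARBITRARY sets `𝒜 j l` of positive integers up to `G t j` be given.
For almost every vector `θ` with respect to the product measure ALL the integer vectors `a` near `t j θ + s j` are such
that for ALL `l` the number of the `n ∈ 𝒜 j l` for which `n + a 1, ..., n + a k` are primes is determined by the distribution
of `𝒜 j l` modulo the primes up to a power of `log (t j)`. The set may consist of primes; then the numbers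
`n, n + a 1, ..., n + a k` are all primes.

Proof: the law of a random rounding of `t θ` is approximated by a finite family of integers (with multiplicities); its
additive energy of order `p ≥ 1 / σ` is nearly minimal since the characteristic function of the rounding is small away
from the integers (a Fourier series with the coefficients `sinc²`). The moment inequality `prod_mom` of the library TH935.TF
(starting files) for products of thin families, with arbitrary weights, is applied to these families, the result is carried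
back to the measure, and then the lemma of Borel and Cantelli is applied.
-/

set_option autoImplicit false

namespace Pool.Agent.Results.MP_8923e7_nt.FourierDecaySets

open Finset MeasureTheory

open Classical in
/-- The number of the `n ∈ S` such that `|n + a i|` is a prime for all `i`. -/
noncomputable def tuples {k : ℕ} (a : Fin k → ℤ) (S : Finset ℕ) : ℕ :=
  (S.filter (fun n : ℕ => ∀ i, ((n : ℤ) + a i).natAbs.Prime)).card

open Classical in
/-- The number of the `n ∈ S` such that no `n + a i` has a prime factor `≤ z`, divided by the `k`-th power of the density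
`∏_{p ≤ z} (1 - 1 / p)` of the integers without prime factors `≤ z`. -/
noncomputable def rough {k : ℕ} (z : ℕ) (a : Fin k → ℤ) (S : Finset ℕ) : ℝ :=
  ((S.filter (fun n : ℕ => ∀ i, ∀ r : ℕ, r.Prime → r ≤ z → ¬ (r : ℤ) ∣ (n : ℤ) + a i)).card : ℝ) /
    (∏ r ∈ (Icc 1 z).filter Nat.Prime, (1 - 1 / (r : ℝ))) ^ k

/-- The number of the `n ∈ S` such that `|n + a i|` is a prime for all `i` agrees with `rough z a S / log ^ k N` up to a
relative error `ε` and an error `N / log ^ (k + U) N`. -/
def Holds {k : ℕ} (ε : ℝ) (U z N : ℕ) (S : Finset ℕ) (a : Fin k → ℤ) : Prop :=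
  |(tuples a S : ℝ) * Real.log N ^ k - rough z a S| ≤ ε * rough z a S + N / Real.log N ^ U

open Pool.Agent.TH935.TF Pool.Agent.V11290.FD.AS in
lemma holds_of {k : ℕ} (ε : ℝ) (U z N : ℕ) {Ln : ℕ} (𝒜 : Fin Ln → Finset ℕ) (a : Fin k → ℤ)
    (h : HS ε 0 U z N 𝒜 a) (l : Fin Ln) : Holds ε U z N (𝒜 l) a := by
  have h1 := h (fun _ => 1) (fun _ => by norm_num) (fun _ => by simp) l
  have e1 : cS (fun _ : Fin k => (1 : ℤ)) a (𝒜 l) = tuples a (𝒜 l) := by
    unfold cS tuples
    congr 1
    ext n
    simp only [mem_filter, one_mul]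
  have e2 : MS z (fun _ : Fin k => (1 : ℤ)) a (𝒜 l) = rough z a (𝒜 l) := by
    unfold MS rough
    rw [card_filter, Nat.cast_sum, sum_div]
    apply sum_congr rfl
    intro n _
    have hiff : ∀ m : ℤ, (∀ r ∈ Pool.Agent.H373R2.T7.pz z, ¬ (r : ℤ) ∣ m) ↔ (∀ r : ℕ, r.Prime → r ≤ z → ¬ (r : ℤ) ∣ m) := by
      intro m
      unfold Pool.Agent.H373R2.T7.pz
      constructor
      · intro h4 r hr hrz hd
        exact h4 r (mem_filter.2 ⟨mem_Icc.2 ⟨hr.one_le, hrz⟩, hr⟩) hd
      · intro h4 r hr hd
        rw [mem_filter, mem_Icc] at hr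
        exact h4 r hr.2 hr.1.2 hd
    have hV : Pool.Agent.H373R2.T7.Vz z = ∏ r ∈ (Icc 1 z).filter Nat.Prime, (1 - 1 / (r : ℝ)) := rfl
    simp only [one_mul]
    by_cases h5 : ∀ i, ∀ r : ℕ, r.Prime → r ≤ z → ¬ (r : ℤ) ∣ (n : ℤ) + a i
    · rw [if_pos h5, Nat.cast_one, one_div, ← hV, ← inv_pow]
      have h6 : ∀ i ∈ (univ : Finset (Fin k)), mdl z ((n : ℤ) + a i) = (Pool.Agent.H373R2.T7.Vz z)⁻¹ := by
        intro i _
        unfold mdl
        rw [if_pos ((hiff _).2 (h5 i))]
      rw [prod_congr rfl h6, prod_const, card_univ, Fintype.card_fin]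
    · rw [if_neg h5, Nat.cast_zero, zero_div]
      rw [not_forall] at h5
      obtain ⟨i, hi⟩ := h5
      apply prod_eq_zero (mem_univ i)
      unfold mdl
      rw [if_neg (fun h6 => hi ((hiff _).1 h6))]
  rw [e1, e2] at h1
  exact h1

/-- Let `μ 1, ..., μ k` be probability measures on `[-B, B]` with `|μ_i^(ξ)| ≤ C |ξ| ^ (-σ)` for `|ξ| ≥ 1` and some `C` and
`σ > 0`. Let `t j ≥ 2` and `|s j i| ≤ B t j` be real numbers, where `j` ranges over a set `J`, such that the sum of the
`1 / log ^ V (t j)` converges for some `V`, and let `N = ⌈t j⌉`. For every `j` let at most `log ^ T (t j)` arbitrary sets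
`𝒜 j l` of integers in `[1, G N]` be given. Then for almost every `θ` with respect to the product of the `μ i` and for all
`A` and `U` there is an `E₀` such that for all `E ≥ E₀`, all `ε > 0` and all but finitely many `j`: ALL vectors `a` of
integers with `|a i - (t j θ i + s j i)| ≤ log ^ A (t j)` for all `i` are such that for ALL `l`, with `z = ⌈log ^ E N⌉`, the
number of the `n ∈ 𝒜 j l` for which all `|n + a i|` are primes, multiplied by `log ^ k N`, differs from
`rough z a (𝒜 j l)` by at most `ε rough z a (𝒜 j l) + N / log ^ U N`. -/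
theorem result (k : ℕ) (hk : 1 ≤ k) (μ : Fin k → Measure ℝ) [∀ i, IsProbabilityMeasure (μ i)] (B : ℝ)
    (hμ : ∀ i, ∀ᵐ α ∂(μ i), |α| ≤ B) (C σ : ℝ) (hσ : 0 < σ)
    (hdec : ∀ i, ∀ ξ : ℝ, 1 ≤ |ξ| → ‖charFun (μ i) ξ‖ ≤ C * |ξ| ^ (-σ))
    (J : Type) (t : J → ℝ) (s : J → Fin k → ℝ) (ht : ∀ j, 2 ≤ t j) (hs : ∀ j i, |s j i| ≤ B * t j)
    (hsum : ∃ V : ℕ, Summable fun j => 1 / Real.log (t j) ^ V)
    (G T : ℕ) (L : J → ℕ) (hL : ∀ j, (L j : ℝ) ≤ Real.log (t j) ^ T) (𝒜 : (j : J) → Fin (L j) → Finset ℕ)
    (h𝒜 : ∀ j l, 𝒜 j l ⊆ Icc 1 (G * ⌈t j⌉₊)) :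
    ∀ᵐ θ ∂(Measure.pi μ), ∀ A U : ℕ, ∃ E₀ : ℕ, ∀ E : ℕ, E₀ ≤ E → ∀ ε : ℝ, 0 < ε →
      {j | ¬ ∀ a : Fin k → ℤ, (∀ i, |(a i : ℝ) - (t j * θ i + s j i)| ≤ Real.log (t j) ^ A) →
        ∀ l, Holds ε U ⌈Real.log ⌈t j⌉₊ ^ E⌉₊ ⌈t j⌉₊ (𝒜 j l) a}.Finite := by
  have h := Pool.Agent.V11290.FD.AS.sets_ae hk μ B hμ C σ hσ hdec J t s ht hs hsum G T L hL 𝒜 h𝒜
  filter_upwards [h] with θ hθ A U
  obtain ⟨E₀, hE₀⟩ := hθ A 0 U
  refine ⟨E₀, fun E hE ε hε => (hE₀ E hE ε hε).subset ?_⟩
  intro j hj
  rw [Set.mem_ofPred_eq] at hj ⊢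
  intro hall
  apply hj
  intro a ha l
  exact holds_of ε U _ _ (𝒜 j) a (hall a ha) l

end Pool.Agent.Results.MP_8923e7_nt.FourierDecaySets
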