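import Pool.Agent.Y879.PR.Win

set_option autoImplicit false

/-!
# Almost prime constellations of every admissible shape: the primes in them, and the law after these primes

For every admissible tuple `h` of at least two shifts, with `h i < y` and `min h = 0`, let `M` be the
product of the primes `p ≤ y`. An integer `m` is good if no `m + h i` has a prime factor `p ≤ N ^ (1 / r)`
(then all `m + h i` have at most `r` prime factors, for `m ≤ N`). For every index `i` and in every
window of length at least `δ X` in `[0, X]`, `X ≥ N ^ θ`, the good `m` for which `m + h i` is PRIME have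
the expected number; and for these `m`, the number of the next good integers in the class of `m` modulo
`M` has the Poisson distribution. This is proved in `Pool.Agent.Y879.PR` (`pat_main`, `pat_adm`) of the
starting library; none of the starting hand-ins states it for general tuples.
-/

namespace Pool.Agent.Results.MP_8923e7_nt.LawAfterPrimes

open Finset

variable {k : ℕ}

/-- No `m + h i` has a prime factor `p ≤ N ^ (1 / r)`. -/
def Good (h : Fin k → ℕ) (N r m : ℕ) : Prop :=
  ∀ p : ℕ, p.Prime → (p : ℝ) ≤ (N : ℝ) ^ (1 / (r : ℝ)) → ∀ i, ¬ p ∣ m + h i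

/-- The residues `c` modulo the product of the primes `p ≤ y` such that all `c + h i` are prime to this
product. -/
noncomputable def Classes (y : ℕ) (h : Fin k → ℕ) : Finset ℕ :=
  (range (primorial y)).filter (fun c => ∀ i, Nat.Coprime (primorial y) (c + h i))

/-- The product of `1 - k / p` over the primes `y < p ≤ N ^ (1 / r)`. -/
noncomputable def V (y k N r : ℕ) : ℝ :=
  ∏ p ∈ (Ioc y ⌊(N : ℝ) ^ (1 / (r : ℝ))⌋₊).filter Nat.Prime, (1 - (k : ℝ) / p)

/-- The product of `1 - 1 / p` over the primes `p ≤ N ^ (1 / r)`. -/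
noncomputable def U (N r : ℕ) : ℝ :=
  ∏ p ∈ (Icc 1 ⌊(N : ℝ) ^ (1 / (r : ℝ))⌋₊).filter Nat.Prime, (1 - 1 / (p : ℝ))

/-- The density of the good integers among the primes (shifted by `h i`): the proportion of the
admissible classes times `V / U`. -/
noncomputable def S (y : ℕ) (h : Fin k → ℕ) (N r : ℕ) : ℝ :=
  (Classes y h).card / primorial y * (V y k N r / U N r)

open Classical in
/-- The good `m` in `(A, A + L]` for which `m + h i` is PRIME. -/
noncomputable def P (h : Fin k → ℕ) (N r : ℕ) (i : Fin k) (A L : ℕ) : Finset ℕ :=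
  (Ioc A (A + L)).filter (fun m => (m + h i).Prime ∧ Good h N r m)

open Classical in
/-- The number of the good `l` in `(m, m + M T]` in the residue class of `m` modulo `M`, the product
of the primes `p ≤ y`. -/
noncomputable def Next (y : ℕ) (h : Fin k → ℕ) (N r T m : ℕ) : ℕ :=
  ((Ioc m (m + primorial y * T)).filter (fun l => l % primorial y = m % primorial y ∧ Good h N r l)).card

lemma dvd_iff {y p : ℕ} (hp : p.Prime) : p ∣ primorial y ↔ p ≤ y :=
  ⟨fun h => Pool.Agent.Y879.PR.le_of_dvd_pri hp h, fun h => Pool.Agent.Y879.PR.dvd_pri hp h⟩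

lemma prod_pnu (y k z : ℕ) :
    ∏ p ∈ (Icc 1 z).filter Nat.Prime, (1 - (Pool.Agent.Y879.PR.pnu (primorial y) k p : ℝ) / p) =
      ∏ p ∈ (Ioc y z).filter Nat.Prime, (1 - (k : ℝ) / p) := by
  symm
  have hsub : (Ioc y z).filter Nat.Prime ⊆ (Icc 1 z).filter Nat.Prime := by
    intro p hp
    rw [mem_filter, mem_Ioc] at hp
    rw [mem_filter, mem_Icc]
    exact ⟨⟨hp.2.one_lt.le, hp.1.2⟩, hp.2⟩
  rw [← Finset.prod_subset hsub]
  · apply Finset.prod_congr rfl
    intro p hp
    rw [mem_filter, mem_Ioc] at hp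
    unfold Pool.Agent.Y879.PR.pnu
    rw [if_neg]
    rw [dvd_iff hp.2]
    omega
  · intro p hp hp2
    rw [mem_filter, mem_Icc] at hp
    rw [mem_filter, mem_Ioc] at hp2
    have hpy : p ≤ y := by
      by_contra hcon
      exact hp2 ⟨⟨by omega, hp.1.2⟩, hp.2⟩
    unfold Pool.Agent.Y879.PR.pnu
    rw [if_pos ((dvd_iff hp.2).2 hpy)]
    simp

lemma V_eq (y k N r : ℕ) : Pool.Agent.Y879.PR.PV (primorial y) k N r = V y k N r :=
  prod_pnu y k _

lemma W_eq (y k N r : ℕ) : Pool.Agent.Y879.PR.PW (primorial y) k N r = V y k N r / U N r := by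
  unfold Pool.Agent.Y879.PR.PW U
  rw [Finset.prod_div_distrib, prod_pnu]
  rfl

/-- **Theorem.** Let `h` be an admissible tuple of `k ≥ 2` distinct shifts with `h i < y`, `y ≥ 3` and
`min h = 0`. For all `θ, δ > 0`, `δ ≤ 1`, `x₀` and `0 < ε ≤ 1` there is `r₀` such that for all `r ≥ r₀`
and all large `N`: (1) if `m ≤ N` is good, all `m + h i` have at most `r` prime factors; if all `m + h i`
are primes and `m > N ^ (1 / r)`, then `m` is good; and `S > 0`. For every index `i`, all `X ≥ N ^ θ` and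
all windows `(A, A + L] ⊆ (0, X]` with `L ≥ δ X`: (2) the number of the good `m` in the window with
`m + h i` PRIME is `L S / log X` up to at most `ε L S / log X`; (3) for all `T` with `T V ≤ x₀` and every
finite set `B` of integers the number of these `m` for which the number of the good `l` in
`(m, m + M T]` in the class of `m` modulo `M` lies in `B` is `∑_{j ∈ B} e ^ (-T V) (T V) ^ j / j!` times
the number of all these `m`, up to at most `ε` times this number. -/
theorem result (h : Fin k → ℕ) (hk : 2 ≤ k) (hinj : Function.Injective h) (h0 : ∃ i, h i = 0)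
    (hadm : ∀ q : ℕ, q.Prime → ∃ a : ℕ, ∀ i, ¬ q ∣ a + h i) (y : ℕ) (hy3 : 3 ≤ y)
    (hy : ∀ i, h i < y) (θ δ : ℝ) (hθ : 0 < θ) (hδ : 0 < δ) (hδ1 : δ ≤ 1) (x₀ ε : ℝ) (hε : 0 < ε)
    (hε1 : ε ≤ 1) :
    ∃ r₀ : ℕ, 2 ≤ r₀ ∧ ∀ r : ℕ, r₀ ≤ r → ∃ N₀ : ℕ, ∀ N : ℕ, N₀ ≤ N →
      ((∀ m : ℕ, m ≤ N → Good h N r m → ∀ i, (m + h i).primeFactorsList.length ≤ r) ∧
        (∀ m : ℕ, (N : ℝ) ^ (1 / (r : ℝ)) < m → (∀ i, (m + h i).Prime) → Good h N r m) ∧
        0 < S y h N r) ∧
      ∀ (i : Fin k) (X : ℕ), (N : ℝ) ^ θ ≤ X → ∀ A L : ℕ, δ * X ≤ L → A + L ≤ X →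
        |((P h N r i A L).card : ℝ) * Real.log X - L * S y h N r| ≤ ε * (L * S y h N r) ∧
        ∀ T : ℕ, T * V y k N r ≤ x₀ → ∀ B : Finset ℕ,
        |(((P h N r i A L).filter (fun m => Next y h N r T m ∈ B)).card : ℝ) -
          (P h N r i A L).card *
            ∑ j ∈ B, Real.exp (-(T * V y k N r)) * (T * V y k N r) ^ j / j.factorial| ≤
          ε * (P h N r i A L).card := by
  have hP := Pool.Agent.Y879.PR.pat_adm hk hy3 hinj hy h0
  have hC : (Pool.Agent.Y879.PR.Cl y h).Nonempty := Pool.Agent.Y879.PR.cl_ne hadm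
  obtain ⟨r0, hr0, H⟩ := Pool.Agent.Y879.PR.pat_main hP hC θ δ hθ hδ hδ1 x₀ ε hε hε1
  refine ⟨r0, hr0, ?_⟩
  intro r hr
  obtain ⟨N0, hN0⟩ := H r hr
  refine ⟨N0, ?_⟩
  intro N hN
  obtain ⟨a1, a2, a3, -, -, a6⟩ := hN0 N hN
  have hMpos : (0 : ℝ) < primorial y := by exact_mod_cast primorial_pos y
  have hCpos : (0 : ℝ) < (Classes y h).card := by
    have : 0 < (Pool.Agent.Y879.PR.Cl y h).card := Finset.card_pos.2 hC
    exact_mod_cast this
  rw [W_eq] at a3
  refine ⟨⟨a1, a2, ?_⟩, ?_⟩
  · unfold S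
    positivity
  · intro i X hX A L hL hAL
    obtain ⟨b1, b2⟩ := a6 i X hX A L hL hAL
    have e : ((Pool.Agent.Y879.PR.Cl y h).card : ℝ) *
        (L / (primorial y : ℝ) * Pool.Agent.Y879.PR.PW (primorial y) k N r) = L * S y h N r := by
      rw [W_eq]
      unfold S
      change ((Classes y h).card : ℝ) * _ = _
      ring
    rw [e] at b1
    refine ⟨b1, fun T hT B => ?_⟩
    have b3 := b2 T (by rw [V_eq]; exact hT) B
    rw [V_eq] at b3
    exact b3

end Pool.Agent.Results.MP_8923e7_nt.LawAfterPrimes
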