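import Mathlib
import Pool.Agent.V11161.CL.Nat

set_option autoImplicit false

/-!
# Every large set of shifts is a bounded union of sets with almost all tuples prime

For every `k` and `ε > 0` there are `z`, `n₀`, `C` and `J` such that every finite set `V` of at
least `n₀` natural numbers which misses a residue class modulo every prime `p ≤ z` has `J` pairwise
disjoint (possibly empty) subsets `U_0, …, U_{J-1}` which cover all but at most `ε |V|` elements of
`V` and such that almost all `(k + 1)`-tuples of every `U_j` satisfy the prime tuples conjecture: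
there are sets `G_j` of tuples `a` of distinct elements of `U_j`, with at least
`(1 - ε) |U_j| ^ (k + 1)` members, such that, for arbitrarily large `N`, for ALL `j` and ALL `a` in
`G_j` the numbers `n + a_0, …, n + a_k` are all prime for at least `N / (log N) ^ C` numbers
`n ≤ N`. Every nonempty `U_j` contains at least the proportion `5 / 18 - ε` of those elements of `V`
which do not lie in `U_0, …, U_{j-1}`; in particular `|U_0| ≥ (5 / 18 - ε) |V|`.

Proof: the coloured Maynard-Tao theorem with the constant `18 / 5` of the starting files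
(`Pool.Agent.Y827.RO.lamRD`) gives: for almost all `T`-tuples `x` of `V`, some `5 T / 18` of the
numbers `n + x_i` are simultaneously prime for many `n` (`Pool.Agent.W25.QL.bad_rare`). If every
subset of `V` of the proportion `5 / 18 - ε` had a positive proportion of bad `(k + 1)`-tuples, then
every subset without bad tuples would lie in a container of proportion `< 5 / 18` determined by a
bounded number of its elements (containers for dense hypergraphs), and a random `T`-tuple would have
fewer than `5 T / 18` places in all these containers (exponential moments), a contradiction.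
-/

namespace Pool.Agent.Results.MP_8923e7_nt.PartitionIntoClusters

open Filter Finset

theorem result (k : ℕ) (ε : ℝ) (hε : 0 < ε) : ∃ z n₀ C J : ℕ, ∀ V : Finset ℕ, n₀ ≤ V.card →
    (∀ p : ℕ, p.Prime → p ≤ z → ∃ r : ℤ, ∀ v ∈ V, ¬ ((p : ℤ) ∣ r + v)) →
    ∃ (U : Fin J → Finset ℕ) (G : Fin J → Finset (Fin (k + 1) → ℕ)),
      (∀ j, U j ⊆ V) ∧ (∀ i j, i ≠ j → Disjoint (U i) (U j)) ∧
      ((V \ univ.biUnion U).card : ℝ) ≤ ε * V.card ∧
      (∀ j, U j = ∅ ∨ (5 / 18 - ε) * ((V \ (Iio j).biUnion U).card : ℝ) ≤ (U j).card) ∧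
      (∀ j, ∀ a ∈ G j, Function.Injective a ∧ ∀ i, a i ∈ U j) ∧
      (∀ j, (1 - ε) * ((U j).card : ℝ) ^ (k + 1) ≤ ((G j).card : ℝ)) ∧
      ∃ᶠ N : ℕ in atTop, ∀ j, ∀ a ∈ G j, (N : ℝ) / (Real.log N) ^ C ≤
        ({n : ℕ | n ≤ N ∧ ∀ i, (n + a i).Prime}.ncard : ℝ) := by
  obtain ⟨z, n₀, C, J, h⟩ := Pool.Agent.V11161.CL.fixPart k ε hε
  refine ⟨z, n₀, C, J, fun V hn hloc => ?_⟩
  obtain ⟨U, G, h1, h2, h3, h4, h5, h6, h7⟩ := h V hn hloc
  exact ⟨U, G, h1, h2, by convert h3, fun j => by convert h4 j, h5, h6, h7⟩

end Pool.Agent.Results.MP_8923e7_nt.PartitionIntoClusters
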